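import Pool.Agent.U610.Nil.TC7

/-!
A uniquely ergodic Heisenberg nilflow with a measurably non-trivial smooth time change that is
neither weakly mixing nor mixing.

Let `β` be any Liouville number and let `X = (1, β, 0)` in the Lie algebra of the Heisenberg group.
The nilflow generated by `X` on `M = Γ \ G` (`Γ` the integer lattice) is uniquely ergodic and `X`
is not central. The positive smooth function `α` is built from the continued fraction convergents
of `β`; it has the measurable eigenfunction `Ψ` (with `|Ψ| = 1` and `Ψ (ψ_s x) = e^{2 π i s} Ψ (x)`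
for the time change `ψ`) while `α - c` is not a measurable coboundary for any constant `c`.
-/

open Set Topology Filter MeasureTheory
open Pool.Agent.R239.NilRet
open Pool.Agent.U610.Nil

namespace Pool.Agent.Results.MP_442888_an.LiouvilleTimeChange

/-- Answer NO to both questions, for the Heisenberg nilflow generated by `(1, β, 0)`, `β` any
Liouville number. -/
theorem result (β : ℝ) (hβ : Liouville β) :
    -- the basic facts on the group, the lattice and the nilmanifold
    (Group.IsNilpotent Heis ∧ SimplyConnectedSpace Heis ∧ DiscreteTopology Gam2 ∧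
      CompactSpace NilM) ∧
    ∃ μ : Measure NilM, IsProbabilityMeasure μ ∧
      -- `μ` is the Haar measure of `M = Γ \ G`
      (∀ h : Heis, MeasurePreserving (rmul h) μ μ) ∧
      -- `X = (1, β, 0)` is not central: its one-parameter group is not in the centre
      (∃ (t : ℝ) (g : Heis), g * expH 1 β 0 t ≠ expH 1 β 0 t * g) ∧
      -- unique ergodicity of the nilflow
      (∀ ν : Measure NilM, IsProbabilityMeasure ν →
        (∀ t, MeasurePreserving (nilflow 1 β 0 t) ν ν) → ν = μ) ∧
      ∃ α : NilM → ℝ, Smooth α ∧ (∀ x, 0 < α x) ∧
        -- the time change is well defined, a flow, and preserves `α dμ / ∫ α dμ`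
        (∀ x, Function.Bijective (clock (nilflow 1 β 0) α x)) ∧
        (∀ s t x, timeChange (nilflow 1 β 0) α s (timeChange (nilflow 1 β 0) α t x) =
          timeChange (nilflow 1 β 0) α (s + t) x) ∧
        IsProbabilityMeasure (changedMeasure μ α) ∧
        (∀ t, MeasurePreserving (timeChange (nilflow 1 β 0) α t) (changedMeasure μ α)
          (changedMeasure μ α)) ∧
        -- measurably non-trivial
        ¬ MeasurablyTrivial μ (nilflow 1 β 0) α ∧
        -- not weakly mixing and not mixing
        ¬ WeaklyMixing (changedMeasure μ α) (timeChange (nilflow 1 β 0) α) ∧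
        ¬ Mixing (changedMeasure μ α) (timeChange (nilflow 1 β 0) α) := by
  refine ⟨⟨inferInstance, inferInstance, inferInstance, inferInstance⟩, haar, inferInstance,
    mp_rmul, ⟨1, Heis.mk 0 1 0, ?_⟩, ?_, ?_⟩
  · intro h
    have h1 := congrArg Heis.z h
    simp [expH] at h1
  · intro ν hν hinv
    exact uniqueErgodic hβ.irrational ν hinv
  · obtain ⟨D⟩ := exists_freq hβ
    have hc := D.al_continuous
    have hm : ∀ x, (1 / 2 : ℝ) ≤ D.al x := D.al_pos
    have h2 : (0 : ℝ) < 1 / 2 := by norm_num
    refine ⟨D.al, D.al_smooth, fun x => lt_of_lt_of_le h2 (hm x), fun x => ⟨?_, ?_⟩, ?_, ?_, ?_, ?_,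
      D.not_weaklyMixing, D.not_mixing⟩
    · exact ck_inj hc h2 hm x
    · exact ck_surj hc h2 hm x
    · exact tc_add hc h2 hm
    · exact changed_prob hc h2 hm
    · exact tc_mp hc h2 hm
    · rintro ⟨c, u, hu, h⟩
      exact D.nontrivial c u hu h

end Pool.Agent.Results.MP_442888_an.LiouvilleTimeChange
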